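import Mathlib

/-!
# The product of two Cauchy kernels
-/

set_option autoImplicit false

namespace Pool.Agent.Q184.GM

open MeasureTheory Filter Topology Set

theorem cauchy_integrable {x : ℝ} (hx : 0 < x) (c : ℝ) :
    Integrable (fun t : ℝ => x / (x ^ 2 + (t - c) ^ 2)) := by
  have h1 : Integrable (fun t : ℝ => (1 + t ^ 2)⁻¹) := integrable_inv_one_add_sq
  have h2 : Integrable (fun t : ℝ => (1 + (x⁻¹ * t) ^ 2)⁻¹) :=
    h1.comp_mul_left' (inv_ne_zero hx.ne')
  have h3 : Integrable (fun t : ℝ => (1 + (x⁻¹ * (t - c)) ^ 2)⁻¹) := h2.comp_sub_right c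
  refine (h3.const_mul x⁻¹).congr (Eventually.of_forall fun t => ?_)
  simp only
  have h4 : 0 < x ^ 2 + (t - c) ^ 2 := by positivity
  have h5 : (1 + (x⁻¹ * (t - c)) ^ 2) = (x ^ 2 + (t - c) ^ 2) / x ^ 2 := by
    field_simp
  rw [h5]
  field_simp

theorem prod_integrable {x : ℝ} (hx : 0 < x) (c d : ℝ) :
    Integrable (fun t : ℝ => (x / (x ^ 2 + (t - c) ^ 2)) * (x / (x ^ 2 + (t - d) ^ 2))) := by
  refine ((cauchy_integrable hx c).mul_bdd (c := x⁻¹) ?_ ?_)
  · refine Continuous.aestronglyMeasurable ?_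
    refine continuous_const.div (by fun_prop) fun t => ?_
    positivity
  · refine Eventually.of_forall fun t => ?_
    rw [Real.norm_eq_abs, abs_of_nonneg (by positivity), div_le_iff₀ (by positivity)]
    have : x⁻¹ * (x ^ 2 + (t - d) ^ 2) = x + x⁻¹ * (t - d) ^ 2 := by
      field_simp
    rw [this]
    have : 0 ≤ x⁻¹ * (t - d) ^ 2 := by positivity
    linarith

theorem tendsto_small {x : ℝ} (hx : 0 < x) (e : ℝ) :
    Tendsto (fun u : ℝ => (2 * e * u + e ^ 2) / (x ^ 2 + u ^ 2)) atTop (𝓝 0) := by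
  have h1 : Tendsto (fun u : ℝ => u / (x ^ 2 + u ^ 2)) atTop (𝓝 0) := by
    refine squeeze_zero' ?_ ?_ tendsto_inv_atTop_zero
    · filter_upwards [eventually_gt_atTop 0] with u hu
      positivity
    · filter_upwards [eventually_gt_atTop 0] with u hu
      rw [div_le_iff₀ (by positivity)]
      have : u⁻¹ * (x ^ 2 + u ^ 2) = u⁻¹ * x ^ 2 + u := by field_simp
      rw [this]
      have : 0 ≤ u⁻¹ * x ^ 2 := by positivity
      linarith
  have h2 : Tendsto (fun u : ℝ => 1 / (x ^ 2 + u ^ 2)) atTop (𝓝 0) := by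
    refine squeeze_zero' ?_ ?_ tendsto_inv_atTop_zero
    · filter_upwards [eventually_gt_atTop 0] with u hu
      positivity
    · filter_upwards [eventually_gt_atTop 1] with u hu
      have hu0 : 0 < u := by linarith
      rw [div_le_iff₀ (by positivity)]
      have : u⁻¹ * (x ^ 2 + u ^ 2) = u⁻¹ * x ^ 2 + u := by field_simp
      rw [this]
      have : 0 ≤ u⁻¹ * x ^ 2 := by positivity
      linarith
  have h3 := (h1.const_mul (2 * e)).add (h2.const_mul (e ^ 2))
  rw [mul_zero, mul_zero, add_zero] at h3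
  refine h3.congr fun u => ?_
  ring

theorem tendsto_log_top {x : ℝ} (hx : 0 < x) (e : ℝ) :
    Tendsto (fun s : ℝ => Real.log (x ^ 2 + s ^ 2) - Real.log (x ^ 2 + (s - e) ^ 2)) atTop
      (𝓝 0) := by
  have h1 : Tendsto (fun s : ℝ => (2 * e * (s - e) + e ^ 2) / (x ^ 2 + (s - e) ^ 2)) atTop
      (𝓝 0) := (tendsto_small hx e).comp (tendsto_atTop_add_const_right _ (-e) tendsto_id)
  have h2 : Tendsto (fun s : ℝ => Real.log (1 + (2 * e * (s - e) + e ^ 2) / (x ^ 2 + (s - e) ^ 2)))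
      atTop (𝓝 0) := by
    have h3 := (h1.const_add 1)
    rw [add_zero] at h3
    have h4 := (Real.continuousAt_log (x := 1) one_ne_zero).tendsto.comp h3
    rwa [Real.log_one] at h4
  refine h2.congr fun s => ?_
  rw [← Real.log_div (by positivity) (by positivity)]
  congr 1
  have h5 : 0 < x ^ 2 + (s - e) ^ 2 := by positivity
  field_simp
  ring

theorem tendsto_log_bot {x : ℝ} (hx : 0 < x) (e : ℝ) :
    Tendsto (fun s : ℝ => Real.log (x ^ 2 + s ^ 2) - Real.log (x ^ 2 + (s - e) ^ 2)) atBot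
      (𝓝 0) := by
  have h1 : Tendsto (fun s : ℝ => e - s) atBot atTop := by
    have := tendsto_atTop_add_const_left atBot e tendsto_neg_atBot_atTop
    refine this.congr fun s => by ring
  have h2 := ((tendsto_log_top hx e).comp h1).neg
  rw [neg_zero] at h2
  refine h2.congr fun s => ?_
  simp only [Function.comp]
  have e1 : (e - s) ^ 2 = (s - e) ^ 2 := by ring
  have e2 : (e - s - e) ^ 2 = s ^ 2 := by ring
  rw [e1, e2]
  ring

theorem tendsto_arctan_top {x : ℝ} (hx : 0 < x) (e : ℝ) :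
    Tendsto (fun s : ℝ => Real.arctan ((s - e) / x)) atTop (𝓝 (Real.pi / 2)) := by
  have h1 : Tendsto (fun s : ℝ => (s - e) / x) atTop atTop :=
    (tendsto_atTop_add_const_right _ (-e) tendsto_id).atTop_div_const hx
  exact (tendsto_nhds_of_tendsto_nhdsWithin Real.tendsto_arctan_atTop).comp h1

theorem tendsto_arctan_bot {x : ℝ} (hx : 0 < x) (e : ℝ) :
    Tendsto (fun s : ℝ => Real.arctan ((s - e) / x)) atBot (𝓝 (-(Real.pi / 2))) := by
  have h1 : Tendsto (fun s : ℝ => (s - e) / x) atBot atBot :=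
    (tendsto_atBot_add_const_right _ (-e) tendsto_id).atBot_div_const hx
  exact (tendsto_nhds_of_tendsto_nhdsWithin Real.tendsto_arctan_atBot).comp h1

theorem hasDeriv_arctan {x : ℝ} (hx : 0 < x) (e s : ℝ) :
    HasDerivAt (fun s : ℝ => Real.arctan ((s - e) / x)) (x / (x ^ 2 + (s - e) ^ 2)) s := by
  have h1 : HasDerivAt (fun s : ℝ => (s - e) / x) (1 / x) s :=
    ((hasDerivAt_id s).sub_const e).div_const x
  have h2 := h1.arctan
  convert h2 using 1
  have : 0 < x ^ 2 + (s - e) ^ 2 := by positivity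
  field_simp

theorem conv_ne {x : ℝ} (hx : 0 < x) {e : ℝ} (he : e ≠ 0) :
    ∫ s : ℝ, (x / (x ^ 2 + s ^ 2)) * (x / (x ^ 2 + (s - e) ^ 2)) =
      2 * Real.pi * x / (4 * x ^ 2 + e ^ 2) := by
  set F : ℝ → ℝ := fun s => x ^ 2 / (e * (e ^ 2 + 4 * x ^ 2)) *
    ((Real.log (x ^ 2 + s ^ 2) - Real.log (x ^ 2 + (s - e) ^ 2)) +
      (e / x) * Real.arctan ((s - 0) / x) + (e / x) * Real.arctan ((s - e) / x)) with hF
  have hd : ∀ s : ℝ, HasDerivAt F ((x / (x ^ 2 + s ^ 2)) * (x / (x ^ 2 + (s - e) ^ 2))) s := by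
    intro s
    have hA : 0 < x ^ 2 + s ^ 2 := by positivity
    have hB : 0 < x ^ 2 + (s - e) ^ 2 := by positivity
    have h1 : HasDerivAt (fun s : ℝ => Real.log (x ^ 2 + s ^ 2)) (2 * s / (x ^ 2 + s ^ 2)) s := by
      have := ((hasDerivAt_pow 2 s).const_add (x ^ 2)).log hA.ne'
      convert this using 1
      simp
    have h2 : HasDerivAt (fun s : ℝ => Real.log (x ^ 2 + (s - e) ^ 2))
        (2 * (s - e) / (x ^ 2 + (s - e) ^ 2)) s := by
      have h0 : HasDerivAt (fun s : ℝ => x ^ 2 + (s - e) ^ 2) (2 * (s - e)) s := by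
        have h00 : HasDerivAt (fun s : ℝ => (s - e) ^ 2) (2 * (s - e) ^ 1 * 1) s :=
          ((hasDerivAt_id s).sub_const e).pow 2
        have := h00.const_add (x ^ 2)
        rwa [pow_one, mul_one] at this
      exact h0.log hB.ne'
    have h3 := hasDeriv_arctan hx 0 s
    have h4 := hasDeriv_arctan hx e s
    have h5 := (((h1.sub h2).add (h3.const_mul (e / x))).add (h4.const_mul (e / x))).const_mul
      (x ^ 2 / (e * (e ^ 2 + 4 * x ^ 2)))
    refine HasDerivAt.congr_deriv (f := F) h5 ?_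
    rw [sub_zero]
    have hE : 0 < e ^ 2 + 4 * x ^ 2 := by positivity
    field_simp
    ring
  have hi : Integrable (fun s : ℝ => (x / (x ^ 2 + s ^ 2)) * (x / (x ^ 2 + (s - e) ^ 2))) := by
    have := prod_integrable hx 0 e
    simpa using this
  have ht : Tendsto F atTop (𝓝 (x ^ 2 / (e * (e ^ 2 + 4 * x ^ 2)) *
      (0 + (e / x) * (Real.pi / 2) + (e / x) * (Real.pi / 2)))) :=
    (((tendsto_log_top hx e).add ((tendsto_arctan_top hx 0).const_mul _)).add
      ((tendsto_arctan_top hx e).const_mul _)).const_mul _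
  have hb : Tendsto F atBot (𝓝 (x ^ 2 / (e * (e ^ 2 + 4 * x ^ 2)) *
      (0 + (e / x) * (-(Real.pi / 2)) + (e / x) * (-(Real.pi / 2))))) :=
    (((tendsto_log_bot hx e).add ((tendsto_arctan_bot hx 0).const_mul _)).add
      ((tendsto_arctan_bot hx e).const_mul _)).const_mul _
  rw [integral_of_hasDerivAt_of_tendsto hd hi hb ht]
  have hE : 0 < e ^ 2 + 4 * x ^ 2 := by positivity
  have hE' : 0 < 4 * x ^ 2 + e ^ 2 := by positivity
  field_simp
  ring

theorem conv_eq {x : ℝ} (hx : 0 < x) :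
    ∫ s : ℝ, (x / (x ^ 2 + s ^ 2)) * (x / (x ^ 2 + s ^ 2)) =
      2 * Real.pi * x / (4 * x ^ 2) := by
  set F : ℝ → ℝ := fun s => (1 / 2) * (s / (x ^ 2 + s ^ 2)) +
    (1 / (2 * x)) * Real.arctan ((s - 0) / x) with hF
  have hd : ∀ s : ℝ, HasDerivAt F ((x / (x ^ 2 + s ^ 2)) * (x / (x ^ 2 + s ^ 2))) s := by
    intro s
    have hA : 0 < x ^ 2 + s ^ 2 := by positivity
    have h1 : HasDerivAt (fun s : ℝ => s / (x ^ 2 + s ^ 2))
        ((1 * (x ^ 2 + s ^ 2) - s * (2 * s)) / (x ^ 2 + s ^ 2) ^ 2) s := by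
      have h2 : HasDerivAt (fun s : ℝ => x ^ 2 + s ^ 2) (2 * s) s := by
        simpa using (hasDerivAt_pow 2 s).const_add (x ^ 2)
      exact (hasDerivAt_id s).div h2 hA.ne'
    have h3 := hasDeriv_arctan hx 0 s
    have h5 := (h1.const_mul (1 / 2)).add (h3.const_mul (1 / (2 * x)))
    refine HasDerivAt.congr_deriv (f := F) h5 ?_
    rw [sub_zero]
    field_simp
    ring
  have hi : Integrable (fun s : ℝ => (x / (x ^ 2 + s ^ 2)) * (x / (x ^ 2 + s ^ 2))) := by
    have := prod_integrable hx 0 0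
    simpa using this
  have h1 : Tendsto (fun u : ℝ => u / (x ^ 2 + u ^ 2)) atTop (𝓝 0) := by
    refine squeeze_zero' ?_ ?_ tendsto_inv_atTop_zero
    · filter_upwards [eventually_gt_atTop 0] with u hu
      positivity
    · filter_upwards [eventually_gt_atTop 0] with u hu
      rw [div_le_iff₀ (by positivity)]
      have : u⁻¹ * (x ^ 2 + u ^ 2) = u⁻¹ * x ^ 2 + u := by field_simp
      rw [this]
      have : 0 ≤ u⁻¹ * x ^ 2 := by positivity
      linarith
  have h1' : Tendsto (fun u : ℝ => u / (x ^ 2 + u ^ 2)) atBot (𝓝 0) := by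
    have := (h1.comp tendsto_neg_atBot_atTop).neg
    rw [neg_zero] at this
    refine this.congr fun s => ?_
    simp only [Function.comp, neg_sq]
    ring
  have ht : Tendsto F atTop (𝓝 ((1 / 2) * 0 + (1 / (2 * x)) * (Real.pi / 2))) :=
    (h1.const_mul _).add ((tendsto_arctan_top hx 0).const_mul _)
  have hb : Tendsto F atBot (𝓝 ((1 / 2) * 0 + (1 / (2 * x)) * (-(Real.pi / 2)))) :=
    (h1'.const_mul _).add ((tendsto_arctan_bot hx 0).const_mul _)
  rw [integral_of_hasDerivAt_of_tendsto hd hi hb ht]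
  field_simp
  ring

/-- **the product of two Cauchy kernels** -/
theorem cauchy_conv {x : ℝ} (hx : 0 < x) (c d : ℝ) :
    Integrable (fun t : ℝ => (x / (x ^ 2 + (t - c) ^ 2)) * (x / (x ^ 2 + (t - d) ^ 2))) ∧
      ∫ t : ℝ, (x / (x ^ 2 + (t - c) ^ 2)) * (x / (x ^ 2 + (t - d) ^ 2)) =
        2 * Real.pi * x / (4 * x ^ 2 + (c - d) ^ 2) := by
  refine ⟨prod_integrable hx c d, ?_⟩
  have h1 : ∫ t : ℝ, (x / (x ^ 2 + (t - c) ^ 2)) * (x / (x ^ 2 + (t - d) ^ 2)) =
      ∫ s : ℝ, (x / (x ^ 2 + s ^ 2)) * (x / (x ^ 2 + (s - (d - c)) ^ 2)) := by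
    rw [← integral_sub_right_eq_self
      (fun s : ℝ => (x / (x ^ 2 + s ^ 2)) * (x / (x ^ 2 + (s - (d - c)) ^ 2))) c]
    refine integral_congr_ae (Eventually.of_forall fun t => ?_)
    simp only
    congr 4
    ring
  rw [h1]
  by_cases he : d - c = 0
  · rw [he]
    have h2 : (c - d) ^ 2 = 0 := by
      have : c - d = 0 := by linarith
      rw [this]; norm_num
    rw [h2, add_zero, ← conv_eq hx]
    simp
  · rw [conv_ne hx he]
    congr 2
    ring

end Pool.Agent.Q184.GM
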