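import Mathlib
import Pool.Agent.H153R4.Pl

/-!
# Plancherel's theorem for the cosine transform
-/

set_option autoImplicit false

namespace Pool.Agent.Q184.GM

open MeasureTheory Filter Topology Set Complex
open scoped FourierTransform ENNReal

theorem integrable_abs {g : ℝ → ℝ} (hg : IntegrableOn g (Ioi 0)) :
    Integrable (fun x : ℝ => g |x|) := by
  have h1 : IntegrableOn (fun x => g |x|) (Ioi 0) :=
    hg.congr_fun (fun x hx => by rw [abs_of_pos (by exact hx)]) measurableSet_Ioi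
  have h2 : IntegrableOn (fun x ↦ g |x|) (Iic 0) := by
    rw [← Measure.map_neg_eq_self (volume : Measure ℝ)]
    let m : MeasurableEmbedding fun x : ℝ => -x := (Homeomorph.neg ℝ).measurableEmbedding
    rw [m.integrableOn_map_iff]
    simp_rw [Function.comp_def, abs_neg, neg_preimage, neg_Iic, neg_zero]
    exact Iff.mpr integrableOn_Ici_iff_integrableOn_Ioi h1
  have h3 := h2.union h1
  rwa [Iic_union_Ioi, integrableOn_univ] at h3

theorem fourier_even {g : ℝ → ℝ} (hg : IntegrableOn g (Ioi 0)) (ξ : ℝ) :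
    𝓕 (fun x : ℝ => ((g |x| : ℝ) : ℂ)) ξ =
      ((2 * ∫ u in Ioi (0 : ℝ), g u * Real.cos ((2 * Real.pi * ξ) * u) : ℝ) : ℂ) := by
  have hG := integrable_abs hg
  rw [Real.fourier_real_eq_integral_exp_smul]
  have hi : Integrable (fun v : ℝ => cexp (↑(-2 * Real.pi * v * ξ) * I) • ((g |v| : ℝ) : ℂ)) := by
    refine (hG.ofReal (𝕜 := ℂ)).bdd_mul (c := 1) ?_ ?_
    · exact (Continuous.aestronglyMeasurable (by fun_prop))
    · refine Eventually.of_forall fun x => ?_
      rw [Complex.norm_exp_ofReal_mul_I]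
  have e1 : ∫ v : ℝ, cexp (↑(-2 * Real.pi * v * ξ) * I) • ((g |v| : ℝ) : ℂ) =
      ∫ v : ℝ, (((g |v| * Real.cos ((2 * Real.pi * ξ) * |v|) : ℝ)) : ℂ) := by
    have e2 : ∫ v : ℝ, cexp (↑(-2 * Real.pi * v * ξ) * I) • ((g |v| : ℝ) : ℂ) =
        ∫ v : ℝ, cexp (↑(-2 * Real.pi * (-v) * ξ) * I) • ((g |-v| : ℝ) : ℂ) :=
      (integral_neg_eq_self (fun v : ℝ => cexp (↑(-2 * Real.pi * v * ξ) * I) • ((g |v| : ℝ) : ℂ))
        volume).symm
    have e3 : (2 : ℂ) * ∫ v : ℝ, cexp (↑(-2 * Real.pi * v * ξ) * I) • ((g |v| : ℝ) : ℂ) =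
        2 * ∫ v : ℝ, (((g |v| * Real.cos ((2 * Real.pi * ξ) * |v|) : ℝ)) : ℂ) := by
      conv_lhs => rw [two_mul]
      nth_rewrite 2 [e2]
      rw [← integral_add hi (by simpa using hi.comp_neg), ← integral_const_mul]
      refine integral_congr_ae (Eventually.of_forall fun v => ?_)
      simp only [abs_neg, smul_eq_mul]
      have e4 : Real.cos ((2 * Real.pi * ξ) * |v|) = Real.cos (2 * Real.pi * v * ξ) := by
        rcases abs_choice v with h | h
        · rw [h]; congr 1; ring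
        · rw [h, ← Real.cos_neg]; congr 1; ring
      rw [e4]
      push_cast
      rw [Complex.cos]
      have e5 : (-2 * (Real.pi : ℂ) * v * ξ) * I = -(2 * (Real.pi : ℂ) * v * ξ) * I := by ring
      have e6 : (-2 * (Real.pi : ℂ) * (-v) * ξ) * I = (2 * (Real.pi : ℂ) * v * ξ) * I := by ring
      rw [e5, e6]
      ring
    exact mul_left_cancel₀ two_ne_zero e3
  rw [e1, ← integral_comp_abs (f := fun u => g u * Real.cos ((2 * Real.pi * ξ) * u))]
  exact integral_complex_ofReal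

/-- **Plancherel's theorem for the cosine transform** -/
theorem cos_plancherel {g : ℝ → ℝ} (hg : IntegrableOn g (Ioi 0))
    (hg2 : IntegrableOn (fun u => g u ^ 2) (Ioi 0)) :
    Integrable (fun t : ℝ => (∫ u in Ioi (0 : ℝ), g u * Real.cos (t * u)) ^ 2) ∧
      ∫ u in Ioi (0 : ℝ), g u ^ 2 =
        1 / Real.pi * ∫ t : ℝ, (∫ u in Ioi (0 : ℝ), g u * Real.cos (t * u)) ^ 2 := by
  have hpi := Real.pi_pos
  set c : ℝ → ℝ := fun t => ∫ u in Ioi (0 : ℝ), g u * Real.cos (t * u) with hc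
  have hG := integrable_abs hg
  have hG2 := integrable_abs hg2
  set G : ℝ → ℂ := fun x => ((g |x| : ℝ) : ℂ) with hGd
  have hGi : Integrable G := hG.ofReal
  have hGm : MemLp G 2 := by
    rw [memLp_two_iff_integrable_sq_norm hGi.1]
    refine hG2.congr (Eventually.of_forall fun x => ?_)
    simp [hGd]
  have hP := Pool.Agent.H153R4.plancherel G hGi hGm
  have hF : ∀ ξ : ℝ, 𝓕 G ξ = ((2 * c ((2 * Real.pi) * ξ) : ℝ) : ℂ) := fun ξ => fourier_even hg ξ
  have hcont : Continuous (𝓕 G) :=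
    VectorFourier.fourierIntegral_continuous (L := innerₗ ℝ) Real.continuous_fourierChar
      continuous_inner hGi
  have hcc : Continuous (fun ξ : ℝ => 2 * c ((2 * Real.pi) * ξ)) := by
    have h1 : (fun ξ : ℝ => 2 * c ((2 * Real.pi) * ξ)) = fun ξ => (𝓕 G ξ).re := by
      ext ξ
      rw [hF ξ, Complex.ofReal_re]
    rw [h1]
    exact Complex.continuous_re.comp hcont
  -- the two sides as real integrals
  have hl : ∀ ξ : ℝ, ‖𝓕 G ξ‖ₑ ^ 2 = ENNReal.ofReal ((2 * c ((2 * Real.pi) * ξ)) ^ 2) := by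
    intro ξ
    rw [hF ξ, ← ofReal_norm, ← ENNReal.ofReal_pow (norm_nonneg _), Complex.norm_real,
      Real.norm_eq_abs, sq_abs]
  have hr : ∀ x : ℝ, ‖G x‖ₑ ^ 2 = ENNReal.ofReal (g |x| ^ 2) := by
    intro x
    rw [← ofReal_norm, ← ENNReal.ofReal_pow (norm_nonneg _), hGd, Complex.norm_real,
      Real.norm_eq_abs, sq_abs]
  simp only [hl, hr] at hP
  rw [← ofReal_integral_eq_lintegral_ofReal hG2 (Eventually.of_forall fun x => sq_nonneg _)] at hP
  have hI : Integrable (fun ξ : ℝ => (2 * c ((2 * Real.pi) * ξ)) ^ 2) := by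
    refine ⟨(hcc.pow 2).aestronglyMeasurable, ?_⟩
    rw [hasFiniteIntegral_iff_ofReal (Eventually.of_forall fun x => sq_nonneg _), hP]
    exact ENNReal.ofReal_lt_top
  rw [← ofReal_integral_eq_lintegral_ofReal hI (Eventually.of_forall fun x => sq_nonneg _)] at hP
  have hE : ∫ ξ : ℝ, (2 * c ((2 * Real.pi) * ξ)) ^ 2 = ∫ x : ℝ, g |x| ^ 2 := by
    have := congrArg ENNReal.toReal hP
    rwa [ENNReal.toReal_ofReal (integral_nonneg fun x => sq_nonneg _),
      ENNReal.toReal_ofReal (integral_nonneg fun x => sq_nonneg _)] at this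
  have hI' : Integrable (fun ξ : ℝ => (c ((2 * Real.pi) * ξ)) ^ 2) := by
    have := hI.const_mul (1 / 4)
    refine this.congr (Eventually.of_forall fun x => ?_)
    simp only
    ring
  refine ⟨(integrable_comp_mul_left_iff (fun t => c t ^ 2) (R := 2 * Real.pi) (by positivity)).1 hI', ?_⟩
  have h3 := Measure.integral_comp_mul_left (fun t => c t ^ 2) (2 * Real.pi)
  have h4 : ∫ ξ : ℝ, (2 * c ((2 * Real.pi) * ξ)) ^ 2 = 4 * ∫ ξ : ℝ, (c ((2 * Real.pi) * ξ)) ^ 2 := by
    rw [← integral_const_mul]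
    refine integral_congr_ae (Eventually.of_forall fun x => ?_)
    simp only
    ring
  rw [h4, h3, integral_comp_abs (f := fun u => g u ^ 2), abs_of_pos (by positivity), smul_eq_mul] at hE
  have h5 : ∫ u in Ioi (0 : ℝ), g u ^ 2 = 2 * ((2 * Real.pi)⁻¹ * ∫ t : ℝ, c t ^ 2) := by
    linarith
  rw [h5, hc]
  field_simp

end Pool.Agent.Q184.GM
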